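import Pool.Agent.FS.EvenPolygon.Geo

open MeasureTheory Pool.Agent.FS.EvenPolygon

namespace Pool.Agent.Results.MP_9cddd8_gt.EvenPolygon

/-- Let two different planar convex bodies contain the closed unit disc in their interiors and
have chords of equal length on all tangent lines of the unit circle.  Among the polygonal lines
`x 0, x 1, …` with vertices on the boundary of `K₁` and sides touching the circle (all in the
same sense of rotation) one is closed and has its vertices also on the boundary of `K₂`, and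
every closed one has an even number of sides. -/
theorem result (K₁ K₂ : Set (EuclideanSpace ℝ (Fin 2)))
    (hc₁ : IsCompact K₁) (hv₁ : Convex ℝ K₁) (hc₂ : IsCompact K₂) (hv₂ : Convex ℝ K₂)
    (hb₁ : Metric.closedBall 0 1 ⊆ interior K₁) (hb₂ : Metric.closedBall 0 1 ⊆ interior K₂)
    (hl : ∀ e : EuclideanSpace ℝ (Fin 2), ‖e‖ = 1 →
      volume {t : ℝ | e + t • (!₂[-e 1, e 0] : EuclideanSpace ℝ (Fin 2)) ∈ K₁} =
        volume {t : ℝ | e + t • (!₂[-e 1, e 0] : EuclideanSpace ℝ (Fin 2)) ∈ K₂})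
    (hne : K₁ ≠ K₂) (S : Set (ℕ → EuclideanSpace ℝ (Fin 2)))
    (hS : S = {x | ∀ i, x i ∈ frontier K₁ ∧
      ∃ (e : EuclideanSpace ℝ (Fin 2)) (s t : ℝ), ‖e‖ = 1 ∧ 0 < s ∧ t < 0 ∧
        x i = e + s • (!₂[-e 1, e 0] : EuclideanSpace ℝ (Fin 2)) ∧
        x (i + 1) = e + t • (!₂[-e 1, e 0] : EuclideanSpace ℝ (Fin 2))}) :
    (∃ x ∈ S, (∀ i, x i ∈ frontier K₂) ∧ ∃ N, 0 < N ∧ x N = x 0) ∧
      ∀ x ∈ S, ∀ N, x N = x 0 → Even N := by
  obtain ⟨a, b, H, ha, hb, hv⟩ := exists_half hc₁ hv₁ hb₁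
  obtain ⟨a', b', H', ha', -, hv'⟩ := exists_half hc₂ hv₂ hb₂
  have hs : ∀ θ, a θ + b θ = a' θ + b' θ := fun θ => by
    have := hl _ (pt_zero θ).1
    simp only [(pt_zero θ).2, hv, hv'] at this
    exact (ENNReal.ofReal_eq_ofReal_iff (add_pos (H.pa θ) (H.pb θ)).le
      (add_pos (H'.pa θ) (H'.pb θ)).le).1 this
  have h0 : ∃ θ, a θ ≠ a' θ := by
    by_contra! c
    refine hne (Set.ext fun x => ?_)
    rcases le_total ‖x‖ 1 with h | h
    · exact iff_of_true (interior_subset (hb₁ (by simpa using h)))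
        (interior_subset (hb₂ (by simpa using h)))
    · obtain ⟨θ, s, s0, rfl⟩ := pt_outer h
      rw [(ha θ s s0).1, (ha' θ s s0).1, c]
  obtain ⟨⟨α, h1, N, hN, k, hk⟩, h2⟩ := half_dyn H H' hs h0
  have nx : ∀ θ, pt θ (-b θ) = pt (nxt b θ) (a (nxt b θ)) := fun θ => by
    rw [H.a_nxt, pt_flip, nxt]
  subst hS
  refine ⟨⟨fun i => pt ((nxt b)^[i] α) (a ((nxt b)^[i] α)), fun i =>
    ⟨(ha _ _ (H.pa _).le).2.2 rfl, pt ((nxt b)^[i] α) 0, _, _, (pt_zero _).1, H.pa _,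
      neg_neg_of_pos (H.pb ((nxt b)^[i] α)), ((pt_zero _).2 _).symm, ?_⟩,
    fun i => (ha' _ _ (H.pa _).le).2.2 (h1 i), N, hN, ?_⟩, fun x hx q hq => ?_⟩
  · rw [(pt_zero _).2, nx]
    simp only [Function.iterate_succ_apply']
  · simp only [hk, pt_per, H.qa.int_mul k α, Function.iterate_zero, id]
  · obtain ⟨f0, e, s, t, he, s0, -, e0, -⟩ := hx 0
    obtain ⟨γ, hγ⟩ := pt_unit he
    rw [hγ] at e0
    have key : ∀ i, x i = pt ((nxt b)^[i] γ) (a ((nxt b)^[i] γ)) := fun i => by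
      induction i with
      | zero =>
        rw [e0] at f0
        rw [e0, (ha γ s s0.le).2.1 f0]
        rfl
      | succ i ih =>
        obtain ⟨-, e, s, t, he, s0, t0, e0, e1⟩ := hx i
        obtain ⟨ψ, hψ⟩ := pt_unit he
        obtain ⟨j, rfl⟩ := pt_inj s0 (H.pa _) ((hψ s).symm.trans (e0.symm.trans ih))
        have f1 := (hx (i + 1)).1
        rw [hψ, pt_per, ← neg_neg t] at e1
        rw [e1] at f1
        rw [e1, (hb _ _ (neg_pos.2 t0).le).1 f1, nx, Function.iterate_succ_apply']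
    rw [← Nat.not_odd_iff_even]
    intro ho
    obtain ⟨j, hj⟩ := pt_inj (H.pa _) (H.pa _) ((key q).symm.trans (hq.trans (key 0)))
    exact h2 γ q ho j hj

end Pool.Agent.Results.MP_9cddd8_gt.EvenPolygon
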