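import Pool.Agent.Lib.MP_9cddd8_gt.Caps

open MeasureTheory Pool.Agent.Lib.MP_9cddd8_gt

namespace Pool.Agent.Results.MP_9cddd8_gt.NonCongruent

private theorem chord {K : Set (EuclideanSpace ℝ (Fin 2))} (hc : IsCompact K) (hv : Convex ℝ K)
    (hb : Metric.closedBall (0 : EuclideanSpace ℝ (Fin 2)) 1 ⊆ interior K)
    {e : EuclideanSpace ℝ (Fin 2)} (he : ‖e‖ = 1) :
    Measure.hausdorffMeasure 1 (K ∩ {x | inner ℝ x e = (1 : ℝ)}) =
        ENNReal.ofReal (Metric.diam (K ∩ {x | inner ℝ x e = (1 : ℝ)})) ∧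
      volume {t : ℝ | e + t • (!₂[-e 1, e 0] : EuclideanSpace ℝ (Fin 2)) ∈ K} =
        ENNReal.ofReal (Metric.diam (K ∩ {x | inner ℝ x e = (1 : ℝ)})) ∧
      0 < Metric.diam (K ∩ {x | inner ℝ x e = (1 : ℝ)}) := by
  set u : EuclideanSpace ℝ (Fin 2) := !₂[-e 1, e 0] with hu
  have he2 : e 0 ^ 2 + e 1 ^ 2 = 1 := by
    have h := EuclideanSpace.real_norm_sq_eq e
    rw [he, Fin.sum_univ_two] at h
    linarith
  have hu1 : ‖u‖ = 1 := by
    have h := EuclideanSpace.real_norm_sq_eq u
    rw [Fin.sum_univ_two] at h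
    have h2 : ‖u‖ ^ 2 = 1 := by rw [h]; simp [hu]; linarith
    nlinarith [norm_nonneg u]
  let φ : ℝ → EuclideanSpace ℝ (Fin 2) := fun t => e + t • u
  have hφ : Isometry φ := Isometry.of_dist_eq fun s t => by
    simp only [φ, dist_eq_norm, add_sub_add_left_eq_sub, ← sub_smul, norm_smul, hu1, mul_one]
  set S : Set ℝ := {t | e + t • u ∈ K} with hS
  have him : K ∩ {x | inner ℝ x e = (1 : ℝ)} = φ '' S := by
    ext x
    constructor
    · rintro ⟨hx, hi⟩
      have hi' : x 0 * e 0 + x 1 * e 1 = 1 := by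
        have : inner ℝ x e = (1 : ℝ) := hi
        simp only [PiLp.inner_apply, Fin.sum_univ_two, RCLike.inner_apply, conj_trivial] at this
        linarith
      have hx' : φ (x 1 * e 0 - x 0 * e 1) = x := by
        ext i
        fin_cases i
        · simp [φ, hu]
          linear_combination (-e 0) * hi' + x 0 * he2
        · simp [φ, hu]
          linear_combination (-e 1) * hi' + x 1 * he2
      exact ⟨_, by simpa [hS, φ] using (show φ _ ∈ K from hx'.symm ▸ hx), hx'⟩
    · rintro ⟨t, ht, rfl⟩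
      refine ⟨ht, ?_⟩
      show inner ℝ (φ t) e = (1 : ℝ)
      simp only [PiLp.inner_apply, Fin.sum_univ_two, RCLike.inner_apply, conj_trivial]
      simp [φ, hu]
      linear_combination he2
  have hSc : IsCompact S := hφ.isClosedEmbedding.isCompact_preimage hc
  have hSv : Convex ℝ S := by
    intro s hs t ht a b ha hb' hab
    have h := hv hs ht ha hb' hab
    show e + (a • s + b • t) • u ∈ K
    convert h using 1
    have : e = (a + b) • e := by rw [hab, one_smul]
    nth_rewrite 1 [this]
    simp only [smul_eq_mul, add_smul, smul_add, mul_smul]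
    abel
  have h0 : S ∈ nhds (0 : ℝ) := by
    have : K ∈ nhds (φ 0) := by
      rw [← mem_interior_iff_mem_nhds]
      exact hb (by simp [φ, he])
    exact hφ.continuous.continuousAt.preimage_mem_nhds this
  have hI := eq_Icc_of_connected_compact ⟨⟨0, mem_of_mem_nhds h0⟩, hSv.isPreconnected⟩ hSc
  have hlt : sInf S < sSup S := by
    rw [hI, ← mem_interior_iff_mem_nhds, interior_Icc] at h0
    exact h0.1.trans h0.2
  have hd : Metric.diam S = sSup S - sInf S := by
    conv_lhs => rw [hI]
    exact Real.diam_Icc hlt.le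
  have hvol : volume S = ENNReal.ofReal (Metric.diam S) := by
    rw [hd]
    conv_lhs => rw [hI]
    exact Real.volume_Icc
  rw [him, hφ.diam_image, hφ.hausdorffMeasure_image (Or.inl zero_le_one), hausdorffMeasure_real]
  exact ⟨hvol, hvol, by linarith⟩

/-- Two different and non-congruent planar convex bodies containing the closed unit disc in their
interiors, with chords of equal, positive and finite length on every line tangent to the unit
circle; the length is taken both as one-dimensional Hausdorff measure of the chord and as Lebesgue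
measure of the parameter set of the unit-speed parametrisation of the line. -/
theorem result :
    ∃ K₁ K₂ : ConvexBody (EuclideanSpace ℝ (Fin 2)),
      (K₁ : Set (EuclideanSpace ℝ (Fin 2))) ≠ K₂ ∧
      (∀ f : EuclideanSpace ℝ (Fin 2) → EuclideanSpace ℝ (Fin 2), Isometry f →
        f '' (K₁ : Set (EuclideanSpace ℝ (Fin 2))) ≠ K₂) ∧
      Metric.closedBall 0 1 ⊆ interior (K₁ : Set (EuclideanSpace ℝ (Fin 2))) ∧
      Metric.closedBall 0 1 ⊆ interior (K₂ : Set (EuclideanSpace ℝ (Fin 2))) ∧
      ∀ e : EuclideanSpace ℝ (Fin 2), ‖e‖ = 1 → ∃ L : ℝ, 0 < L ∧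
        Measure.hausdorffMeasure 1
          ((K₁ : Set (EuclideanSpace ℝ (Fin 2))) ∩ {x | inner ℝ x e = (1 : ℝ)}) =
            ENNReal.ofReal L ∧
        Measure.hausdorffMeasure 1
          ((K₂ : Set (EuclideanSpace ℝ (Fin 2))) ∩ {x | inner ℝ x e = (1 : ℝ)}) =
            ENNReal.ofReal L ∧
        volume {t : ℝ | e + t • (!₂[-e 1, e 0] : EuclideanSpace ℝ (Fin 2)) ∈ K₁} =
          ENNReal.ofReal L ∧
        volume {t : ℝ | e + t • (!₂[-e 1, e 0] : EuclideanSpace ℝ (Fin 2)) ∈ K₂} =
          ENNReal.ofReal L := by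
  obtain ⟨U, L, g, h1, h2, h3, h4⟩ := arcs
  obtain ⟨h, hne⟩ := geom U L g h1 h2 h3 h4
  refine ⟨⟨big U L, big_convex U L, big_compact U L, ⟨0, interior_subset (big_ball U L (by simp))⟩⟩,
    ⟨big L U, big_convex L U, big_compact L U, ⟨0, interior_subset (big_ball L U (by simp))⟩⟩,
    fun x => big_not_congr hne isometry_id ((Set.image_id _).trans x),
    fun f hf => big_not_congr hne hf, big_ball U L, big_ball L U, fun e he => ?_⟩
  have hv : ∀ A B : Arc, volume {t : ℝ | e + t • (!₂[-e 1, e 0] : EuclideanSpace ℝ (Fin 2)) ∈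
      big A B} = volume {t : ℝ | e + t • (!₂[-e 1, e 0] : EuclideanSpace ℝ (Fin 2)) ∈ caps} +
      ENNReal.ofReal (Metric.diam (body A B ∩ {x | inner ℝ x e = (1 : ℝ)})) := fun A B => by
    rw [← (chord (body_compact A B) (body_convex A B) (body_ball A B) he).2.1, big_eq]
    exact measure_union ((caps_disj A B).preimage _)
      ((body_compact A B).isClosed.preimage (by fun_prop)).measurableSet
  obtain ⟨p1, p2, p3⟩ := chord (big_compact U L) (big_convex U L) (big_ball U L) he
  obtain ⟨q1, q2, -⟩ := chord (big_compact L U) (big_convex L U) (big_ball L U) he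
  have k : ENNReal.ofReal (Metric.diam (big L U ∩ {x | inner ℝ x e = (1 : ℝ)})) =
      ENNReal.ofReal (Metric.diam (big U L ∩ {x | inner ℝ x e = (1 : ℝ)})) := by
    rw [← p2, ← q2, hv, hv, h e he]
  exact ⟨_, p3, p1, q1.trans k, p2, q2.trans k⟩

end Pool.Agent.Results.MP_9cddd8_gt.NonCongruent
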